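import Pool.Agent.Work.MP_1698af_al.Hedge.Peel
import Mathlib.LinearAlgebra.Prod

/-! The largest core generates the algebraic closure. -/

namespace Pool.Agent.Work.MP_1698af_al.Hedge

open FreeGroup MulOpposite MonoidAlgebra Submodule

variable {B K : Type*} [Field K] {U W : Submodule K (Al B K)}

theorem core_ker (hW : IsCore U W) {l : Al B K →ₗ[K] K} (g : FreeGroup B)
    (hU : U ≤ LinearMap.ker l) (hl : ∀ c, IsLetter c → c ≠ g → ∀ w ∈ stay W c, l w = 0) :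
    W ≤ LinearMap.ker l :=
  (hW.2 g).trans (sup_le hU (iSup₂_le fun c hc w hw => hl c hc.1 hc.2 w hw))

theorem core_alg [FiniteDimensional K W] (hW : IsCore U W)
    {L1 L2 : Submodule (Al B K)ᵐᵒᵖ (Al B K)} (hU : ∀ u ∈ U, u ∈ L1) (hd : Disjoint L1 L2)
    (hs : L1 ⊔ L2 = span (Al B K)ᵐᵒᵖ (W : Set (Al B K))) : L2 = ⊥ := by
  classical
  obtain ⟨ρ, hρ⟩ := exists_fac ((L1.restrictScalars K).prod (L2.restrictScalars K))
    (LinearMap.fst K _ _ + LinearMap.snd K _ _) (LinearMap.snd K _ _) fun x hx h =>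
      disjoint_def.1 hd x.2
        (by rw [eq_neg_of_add_eq_zero_right (show x.1 + x.2 = 0 from h)]; exact neg_mem hx.1) hx.2
  replace hρ : ∀ x ∈ L1, ∀ y ∈ L2, ρ (x + y) = y := fun x hx y hy => hρ (x, y) ⟨hx, hy⟩
  have hdec : ∀ w ∈ W, ∃ x ∈ L1, ∃ y ∈ L2, x + y = w := fun w hw =>
    mem_sup.1 (hs ▸ subset_span hw)
  have hc : Cpt W ρ := fun c _ w hw => by
    obtain ⟨x, hx, y, hy, rfl⟩ := hdec w hw.1
    rw [add_mul, hρ x hx y hy]
    exact hρ _ (L1.smul_mem (op _) hx) _ (L2.smul_mem (op _) hy)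
  have h0 : ∀ w ∈ W, ρ w = 0 := fun w hw => by
    ext t0
    by_contra h
    obtain ⟨t, c0, -, ⟨w', hw', h1⟩, h2⟩ := exists_max hc hw h
    refine h1 (core_ker (l := cf t ∘ₗ ρ) hW c0 (fun u hu => ?_) h2 hw')
    have := hρ u (hU u hu) 0 (zero_mem _)
    rw [add_zero] at this
    simp [this]
  have h1 : span (Al B K)ᵐᵒᵖ (W : Set (Al B K)) ≤ L1 := span_le.2 fun w hw => by
    obtain ⟨x, hx, y, hy, rfl⟩ := hdec w hw
    have := h0 _ hw
    rw [hρ x hx y hy] at this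
    simpa [this] using hx
  exact hd.symm.eq_bot_of_le (le_sup_right.trans (hs.le.trans h1))

theorem exists_core (n : ℕ) : ∀ W : Submodule K (Al B K), FiniteDimensional K W →
    Module.finrank K W = n → Ext W → U ≤ W →
    ∃ C, IsGreatest {X | IsCore U X ∧ X ≤ W} C ∧ ∃ S : Set (Al B K), S ⊆ W ∧
      LinearIndepOn (Al B K)ᵐᵒᵖ id S ∧
      Disjoint (span (Al B K)ᵐᵒᵖ (C : Set (Al B K))) (span (Al B K)ᵐᵒᵖ S) ∧
      span (Al B K)ᵐᵒᵖ (C : Set (Al B K)) ⊔ span (Al B K)ᵐᵒᵖ S =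
        span (Al B K)ᵐᵒᵖ (W : Set (Al B K)) := by
  induction n using Nat.strong_induction_on with
  | _ n ih =>
  intro W hf hn hE hU
  by_cases hc : IsCore U W
  · exact ⟨W, ⟨⟨hc, le_rfl⟩, fun X hX => hX.2⟩, ∅, by simp, by simp, by simp, by simp⟩
  obtain ⟨g, hg⟩ := not_forall.1 fun h => hc ⟨hU, h⟩
  obtain ⟨w, hw, hw'⟩ := SetLike.not_le_iff_exists.1 hg
  obtain ⟨l, hl, hk⟩ := exists_le_ker_of_notMem hw'
  have hUl : U ≤ LinearMap.ker l := le_sup_left.trans hk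
  have hst : ∀ c, IsLetter c → c ≠ g → ∀ w ∈ stay W c, l w = 0 := fun c h1 h2 w hw =>
    hk (mem_sup_right (mem_iSup_of_mem c (mem_iSup_of_mem ⟨h1, h2⟩ hw)))
  obtain ⟨hE', halt⟩ := peel1 hE l g hst
  have hlt : W ⊓ LinearMap.ker l < W := lt_of_le_of_ne inf_le_left fun e => hl (e.ge hw).2
  obtain ⟨C, hC, S, hS1, hS2, hS3, hS4⟩ := ih _ (hn ▸ finrank_lt_finrank_of_lt hlt) _
    (finiteDimensional_of_le hlt.le) rfl hE' (le_inf hU hUl)
  refine ⟨C, ⟨⟨hC.1.1, hC.1.2.trans hlt.le⟩, fun X hX => hC.2 ⟨hX.1, le_inf hX.2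
    (core_ker hX.1 g hUl fun c h1 h2 w hw => hst c h1 h2 w (stay_mono hX.2 c hw))⟩⟩, ?_⟩
  rcases halt with h | ⟨-, v, hv, h1, h2⟩
  · rw [← hS4] at h
    have h' : ∀ r : (Al B K)ᵐᵒᵖ, r • w ∈ span (Al B K)ᵐᵒᵖ (C : Set (Al B K)) ⊔
        span (Al B K)ᵐᵒᵖ S → r = 0 := fun r hr => unop_injective (h w hw hl r.unop hr)
    refine ⟨insert w S, Set.insert_subset hw fun x hx => (hS1 hx).1,
      hS2.id_insert' fun r hr => h' r (mem_sup_right hr), disjoint_def.2 fun x hx hx' => ?_, ?_⟩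
    · obtain ⟨r, s, hs, rfl⟩ := mem_span_insert.1 hx'
      have := h' r (by
        simpa using sub_mem (mem_sup_left hx) (mem_sup_right (S := span _ (C : Set (Al B K))) hs))
      rw [this, zero_smul, zero_add] at hx ⊢
      exact disjoint_def.1 hS3 _ hx hs
    · rw [span_insert, sup_left_comm, hS4]
      refine le_antisymm (sup_le (span_mono (by simpa using hw)) (span_mono fun _ h => h.1))
        (span_le.2 fun x hx => ?_)
      have e : x = op ((l x / l w) • (1 : Al B K)) • w + (x - (l x / l w) • w) := by simp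
      rw [e]
      exact add_mem (mem_sup_left (smul_mem _ _ (subset_span rfl))) (mem_sup_right
        (subset_span ⟨sub_mem hx (smul_mem _ _ hw), by simp [hl]⟩))
  · exact ⟨S, fun x hx => (hS1 hx).1, hS2, hS3, hS4.trans (forced_span hv h1 h2)⟩

theorem core_main (T : Set (FreeGroup B)) (hfin : T.Finite)
    (hT : ((cay B).induce T).Preconnected) (I : Submodule (Al B K)ᵐᵒᵖ (Al B K))
    (hI : I = span (Al B K)ᵐᵒᵖ (onT I T : Set (Al B K))) (U : Submodule K (Al B K))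
    (hU : U ≤ onT I T) :
    ∃ W, IsGreatest {X | IsCore U X ∧ X ≤ onT I T} W ∧
      (∀ L₁ L₂ : Submodule (Al B K)ᵐᵒᵖ (Al B K), (∀ a ∈ U, a ∈ L₁) → Disjoint L₁ L₂ →
        L₁ ⊔ L₂ = span (Al B K)ᵐᵒᵖ W → L₂ = ⊥) ∧
      (∃ S : Set (Al B K), (∀ a ∈ S, (a.coeff.support : Set (FreeGroup B)) ⊆ T) ∧
        LinearIndepOn (Al B K)ᵐᵒᵖ id S ∧
        Disjoint (span (Al B K)ᵐᵒᵖ (W : Set (Al B K))) (span (Al B K)ᵐᵒᵖ S) ∧
        span (Al B K)ᵐᵒᵖ W ⊔ span (Al B K)ᵐᵒᵖ S = I) ∧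
      ((∃ C, Disjoint (span (Al B K)ᵐᵒᵖ (U : Set (Al B K))) C ∧ span (Al B K)ᵐᵒᵖ U ⊔ C = I) ↔
        ∀ a ∈ W, a ∈ span (Al B K)ᵐᵒᵖ (U : Set (Al B K))) := by
  classical
  have hf := fin_onT I hfin
  obtain ⟨W, hW, S, h1, h2, h3, h4⟩ :=
    exists_core _ _ hf rfl (ext_onT I (convex_of_connected T hT)) hU
  have := finiteDimensional_of_le hW.1.2
  rw [← hI] at h4
  have hUW : span (Al B K)ᵐᵒᵖ (U : Set (Al B K)) ≤ span (Al B K)ᵐᵒᵖ W := span_mono hW.1.1.1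
  refine ⟨W, hW, fun L1 L2 => core_alg hW.1.1, ⟨S, fun a ha => (h1 ha).2, h2, h3, h4⟩,
    fun ⟨C, h5, h6⟩ a ha => ?_, fun h => ⟨_, h3.mono_left hUW, ?_⟩⟩
  · have h7 : span (Al B K)ᵐᵒᵖ (U : Set (Al B K)) ⊔ C ⊓ span (Al B K)ᵐᵒᵖ W =
        span (Al B K)ᵐᵒᵖ W := by
      rw [← sup_inf_assoc_of_le _ hUW, h6, inf_eq_right.2 (le_sup_left.trans h4.le)]
    rw [core_alg hW.1.1 (fun u hu => subset_span hu) (h5.mono_right inf_le_left) h7,
      sup_bot_eq] at h7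
    exact h7.ge (subset_span ha)
  · rw [le_antisymm hUW (span_le.2 h), h4]

end Pool.Agent.Work.MP_1698af_al.Hedge
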