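import Mathlib.Algebra.MonoidAlgebra.Basic
import Mathlib.Algebra.MonoidAlgebra.Module
import Mathlib.GroupTheory.FreeGroup.Basic
import Mathlib.Algebra.Algebra.Bilinear

/-! Cores of subspaces of a free group algebra. -/

namespace Pool.Agent.Work.MP_1698af_al.Hedge

variable {B K : Type*} [Field K]

/-- `c` is a basis element or the inverse of one -/
def IsLetter (c : FreeGroup B) : Prop := ∃ b : B, c = FreeGroup.of b ∨ c = (FreeGroup.of b)⁻¹

/-- the elements `w` of `W` with `w c` in `W` -/
noncomputable def stay (W : Submodule K (MonoidAlgebra K (FreeGroup B))) (c : FreeGroup B) :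
    Submodule K (MonoidAlgebra K (FreeGroup B)) :=
  W ⊓ W.comap (LinearMap.mulRight K (MonoidAlgebra.single c 1))

/-- `W` contains `U` and is spanned by `U` and the `stay W c`, even if one letter is left out -/
def IsCore (U W : Submodule K (MonoidAlgebra K (FreeGroup B))) : Prop :=
  U ≤ W ∧ ∀ g : FreeGroup B, W ≤ U ⊔ ⨆ c ∈ {c | IsLetter c ∧ c ≠ g}, stay W c

end Pool.Agent.Work.MP_1698af_al.Hedge
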