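import Pool.Agent.Work.MP_1698af_al.Hedge.Peel
import Mathlib.LinearAlgebra.Pi

/-! Coordinates with respect to a basis of a right ideal. -/

namespace Pool.Agent.Work.MP_1698af_al.Hedge

open FreeGroup MulOpposite MonoidAlgebra Submodule Set

variable {B K ι : Type*} [Field K] [Fintype ι] [DecidableEq ι]
  {I : Submodule (Al B K)ᵐᵒᵖ (Al B K)} {e : ι → Al B K} {W : Submodule K (Al B K)}
  {π : ι → Al B K →ₗ[K] Al B K} {ρ : Al B K →ₗ[K] Al B K} {x : Al B K}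

/-- ordered bases of a right ideal -/
def Bas (I : Submodule (Al B K)ᵐᵒᵖ (Al B K)) (e : ι → Al B K) : Prop :=
  LinearIndependent (Al B K)ᵐᵒᵖ e ∧ span (Al B K)ᵐᵒᵖ (range e) = I

/-- coordinate maps -/
def Crd (e : ι → Al B K) (π : ι → Al B K →ₗ[K] Al B K) : Prop :=
  ∀ (a : ι → Al B K) i, π i (∑ j, e j * a j) = a i

/-- right linear on `I` -/
def Lin (I : Submodule (Al B K)ᵐᵒᵖ (Al B K)) (ρ : Al B K →ₗ[K] Al B K) : Prop :=
  ∀ x ∈ I, ∀ a, ρ (x * a) = ρ x * a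

omit [Fintype ι] [DecidableEq ι] in
theorem Bas.mem (h : Bas I e) (j : ι) : e j ∈ I := h.2 ▸ subset_span ⟨j, rfl⟩

omit [DecidableEq ι] in
theorem Bas.exists_sum (h : Bas I e) (hx : x ∈ I) : ∃ a : ι → Al B K, ∑ j, e j * a j = x := by
  obtain ⟨c, hc⟩ := (mem_span_range_iff_exists_fun _).1 (h.2 ▸ hx)
  exact ⟨fun j => (c j).unop, hc⟩

omit [DecidableEq ι] in
theorem Bas.exists_crd (h : Bas I e) : ∃ π, Crd e π := by
  have : ∀ i, ∃ Φ : Al B K →ₗ[K] Al B K, ∀ a : ι → Al B K, Φ (∑ j, e j * a j) = a i := fun i => by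
    obtain ⟨Φ, hΦ⟩ := exists_fac ⊤ (∑ j, LinearMap.mulLeft K (e j) ∘ₗ LinearMap.proj j)
      (LinearMap.proj (R := K) (φ := fun _ : ι => Al B K) i) fun a _ ha =>
        op_injective (Fintype.linearIndependent_iff.1 h.1 (fun j => op (a j))
          (by simpa using ha) i)
    exact ⟨Φ, fun a => by simpa using hΦ a trivial⟩
  choose π hπ using this
  exact ⟨π, fun a i => hπ i a⟩

omit [DecidableEq ι] in
theorem Crd.sum (hπ : Crd e π) (h : Bas I e) (hx : x ∈ I) : ∑ j, e j * π j x = x := by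
  obtain ⟨a, rfl⟩ := h.exists_sum hx
  simp only [hπ a]

omit [DecidableEq ι] in
theorem Crd.lin (hπ : Crd e π) (h : Bas I e) (i : ι) : Lin I (π i) := fun x hx c => by
  obtain ⟨a, rfl⟩ := h.exists_sum hx
  simp only [Finset.sum_mul, mul_assoc, hπ a, hπ fun j => a j * c]

theorem Crd.self (hπ : Crd e π) (i j : ι) : π i (e j) = if i = j then 1 else 0 := by
  simpa [Pi.single_apply] using hπ (Pi.single j 1) i

omit [DecidableEq ι] in
theorem Crd.kill (hπ : Crd e π) (h : Bas I e) (hρ : Lin I ρ) (hx : x ∈ I)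
    (h0 : ∀ j, ρ (e j) = 0 ∨ π j x = 0) : ρ x = 0 := by
  rw [← hπ.sum h hx, map_sum]
  exact Finset.sum_eq_zero fun j _ => by
    rw [hρ _ (h.mem j)]
    rcases h0 j with h1 | h1 <;> simp [h1]

theorem Lin.cpt (hρ : Lin I ρ) (hW : ∀ w ∈ W, w ∈ I) : Cpt W ρ := fun _ _ w hw =>
  hρ w (hW w hw.1) _

theorem Bas.update (h : Bas I e) (hπ : Crd e π) {i : ι} (hx : x ∈ I) (hu : IsUnit (π i x)) :
    Bas I (Function.update e i x) := by
  obtain ⟨u, hu⟩ := hu
  refine ⟨Fintype.linearIndependent_iff.2 fun g hg => ?_, le_antisymm (span_le.2 ?_) ?_⟩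
  · have hg' : x * (g i).unop + ∑ j ∈ Finset.univ.erase i, e j * (g j).unop = 0 := by
      rw [← hg, ← Finset.add_sum_erase _ _ (Finset.mem_univ i), Function.update_self]
      exact congrArg _ (Finset.sum_congr rfl fun j hj => by
        rw [Function.update_of_ne (Finset.ne_of_mem_erase hj)]; rfl)
    have h1 : ∀ k, π k (∑ j ∈ Finset.univ.erase i, e j * (g j).unop) =
        if k = i then 0 else (g k).unop := fun k => by
      simp only [map_sum, hπ.lin h k _ (h.mem _), hπ.self, ite_mul, one_mul, zero_mul,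
        Finset.sum_ite_eq, Finset.mem_erase, Finset.mem_univ, and_true, ne_eq, ite_not]
    have h2 := congrArg (π i) hg'
    rw [map_add, h1, hπ.lin h i x hx, ← hu, if_pos rfl, add_zero, map_zero,
      Units.mul_right_eq_zero] at h2
    intro k
    by_cases hk : k = i
    · exact unop_injective (hk ▸ h2)
    have h3 := congrArg (π k) hg'
    rw [h2, mul_zero, zero_add, h1, if_neg hk, map_zero] at h3
    exact unop_injective h3
  · rintro _ ⟨j, rfl⟩
    rw [Function.update_apply]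
    split_ifs
    exacts [hx, h.mem j]
  · rw [← h.2, span_le]
    have h1 : ∀ j ≠ i, e j ∈ span (Al B K)ᵐᵒᵖ (range (Function.update e i x)) := fun j hj =>
      subset_span ⟨j, Function.update_of_ne hj _ _⟩
    rintro _ ⟨j, rfl⟩
    by_cases hj : j = i
    swap
    · exact h1 j hj
    have h2 := hπ.sum h hx
    rw [← Finset.add_sum_erase _ _ (Finset.mem_univ i), ← hu, ← eq_sub_iff_add_eq,
      ← Units.eq_mul_inv_iff_mul_eq] at h2
    rw [hj, h2]
    exact smul_mem _ (op _) (sub_mem (subset_span ⟨i, Function.update_self ..⟩)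
      (sum_mem fun k hk => smul_mem _ (op _) (h1 k (Finset.ne_of_mem_erase hk))))

/-- scalar multiples of one -/
def Sc (a : Al B K) : Prop := ∀ t ≠ 1, a.coeff t = 0

theorem Sc.eq (h : Sc x) : x = x.coeff 1 • 1 := by
  classical
  ext t
  by_cases e : t = 1
  · simp [e, one_def]
  · simp [h t e, one_def, Finsupp.single_eq_of_ne e]

theorem Sc.isUnit (h : Sc x) (h0 : x ≠ 0) : IsUnit x := by
  rw [h.eq, ← Algebra.algebraMap_eq_smul_one]
  exact (IsUnit.mk0 _ fun e => h0 (by rw [h.eq, e, zero_smul])).map _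

theorem Crd.sc (hπ : Crd e π) (i j : ι) : Sc (π i (e j)) := fun t ht => by
  rw [hπ.self]
  split_ifs <;> simp [one_def, Finsupp.single_eq_of_ne ht]

theorem descend [FiniteDimensional K W] (hW : Ext W) (hρ : Cpt W ρ) {E : Set (Al B K)}
    (hE : E ⊆ W) (hWE : ∀ w ∈ W, w ∈ span (Al B K)ᵐᵒᵖ E) (hE1 : ∀ y ∈ E, Sc (ρ y))
    (hx : x ∈ W) (h0 : ¬ Sc (ρ x)) :
    ∃ (l : Al B K →ₗ[K] K) (c0 : FreeGroup B), Ext (W ⊓ LinearMap.ker l) ∧
      (∀ y, ρ y = 0 → l y = 0) ∧ (∀ y ∈ E, l y = 0) ∧ IsLetter c0 ∧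
      (∃ v ∈ stay W c0, l v = 1 ∧ l (v * el c0) = 0) ∧
      ∀ c, IsLetter c → c ≠ c0 → ∀ w ∈ stay W c, l w = 0 := by
  classical
  simp only [Sc, not_forall] at h0
  obtain ⟨t0, h1, h2⟩ := h0
  obtain ⟨t, c0, h3, ⟨w, hw, h4⟩, h5⟩ := exists_max hρ hx h2
  have ht : t ≠ 1 := fun e => h1 (by simpa [e] using h3)
  have h6 : ∀ y ∈ E, (cf t ∘ₗ ρ) y = 0 := fun y hy => hE1 y hy t ht
  obtain ⟨h7, h8 | ⟨h8, h9⟩⟩ := peel1 hW (cf t ∘ₗ ρ) c0 h5
  · exact absurd (h8 w hw h4 1 (by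
      rw [mul_one]
      exact span_mono (fun y hy => mem_inf.2 ⟨hE hy, h6 y hy⟩) (hWE w hw))) one_ne_zero
  · exact ⟨_, c0, h7, fun y hy => by simp [hy], h6, h8, h9, h5⟩

theorem ker_lt {l : Al B K →ₗ[K] K} (hx : x ∈ W) (h : l x = 1) : W ⊓ LinearMap.ker l < W :=
  lt_of_le_of_ne inf_le_left fun e => one_ne_zero (h.symm.trans (e.ge hx).2)

theorem exists_one {E : Set (Al B K)} (hE1 : ∀ y ∈ E, Sc (ρ y)) (n : ℕ) :
    ∀ W : Submodule K (Al B K), FiniteDimensional K W → Module.finrank K W = n → Ext W →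
      Cpt W ρ → E ⊆ W → (∀ w ∈ W, w ∈ span (Al B K)ᵐᵒᵖ E) → (∃ x ∈ W, ¬ Sc (ρ x)) →
      ∃ c, IsLetter c ∧ ∃ u ∈ stay W c, ρ u = 1 := by
  induction n using Nat.strong_induction_on with
  | _ n ih =>
  rintro W hf hn hW hρ hE hWE ⟨x, hx, h0⟩
  obtain ⟨l, c0, h1, h2, h3, h4, ⟨v, hv, h5, h6⟩, -⟩ := descend hW hρ hE hWE hE1 hx h0
  have hlt := ker_lt hv.1 h5
  by_cases h : Sc (ρ (v * el c0))
  · have h7 : ρ (v * el c0) ≠ 0 := fun e => by
      rw [hρ c0 h4 v hv] at e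
      rw [h2 v (by rw [← mul_el_inv (ρ v) c0, e, zero_mul])] at h5
      exact zero_ne_one h5
    have h8 : (ρ (v * el c0)).coeff 1 ≠ 0 := fun e => h7 (by rw [h.eq, e, zero_smul])
    refine ⟨_, h4.inv, _, smul_mem _ ((ρ (v * el c0)).coeff 1)⁻¹ (stay_inv hv), ?_⟩
    rw [map_smul]
    nth_rw 2 [h.eq]
    rw [smul_smul, inv_mul_cancel₀ h8, one_smul]
  · obtain ⟨c, hc, u, hu, h7⟩ := ih _ (hn ▸ finrank_lt_finrank_of_lt hlt) _
      (finiteDimensional_of_le hlt.le) rfl h1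
      (fun c hc w hw => hρ c hc w (stay_mono hlt.le c hw)) (fun y hy => ⟨hE hy, h3 y hy⟩)
      (fun w hw => hWE w hw.1) ⟨_, ⟨hv.2, h6⟩, h⟩
    exact ⟨c, hc, u, stay_mono hlt.le c hu, h7⟩

end Pool.Agent.Work.MP_1698af_al.Hedge
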