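import Pool.Agent.Work.MP_1698af_al.Hedge.Exch1

/-! Joining two bases by single exchanges inside a subtree. -/

namespace Pool.Agent.Work.MP_1698af_al.Hedge

open FreeGroup MulOpposite MonoidAlgebra Submodule Set Relation

theorem reach_all {α ι : Type*} [Fintype ι] {r : α → α → Prop} {S : α → Prop} (P : ι → α → Prop)
    (h : ∀ a, S a → ∀ i, ¬ P i a → ∃ b, ReflTransGen r a b ∧ S b ∧ P i b ∧ ∀ j, P j a → P j b)
    {a : α} (ha : S a) : ∃ b, ReflTransGen r a b ∧ S b ∧ ∀ i, P i b := by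
  classical
  have : ∀ s : Finset ι, ∃ b, ReflTransGen r a b ∧ S b ∧ ∀ i ∈ s, P i b := fun s => by
    induction s using Finset.induction_on with
    | empty => exact ⟨a, .refl, ha, by simp⟩
    | insert i s _ ih =>
      obtain ⟨b, h1, h2, h3⟩ := ih
      by_cases hi : P i b
      · exact ⟨b, h1, h2, by simpa [hi] using h3⟩
      obtain ⟨c, h4, h5, h6, h7⟩ := h b h2 i hi
      exact ⟨c, h1.trans h4, h5, by simpa [h6] using fun j hj => h7 j (h3 j hj)⟩
  simpa using this Finset.univ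

variable {B K ι : Type*} [Field K] [Fintype ι] [DecidableEq ι]
  {I : Submodule (Al B K)ᵐᵒᵖ (Al B K)} {a e' : ι → Al B K} {W : Submodule K (Al B K)}
  {π π' : ι → Al B K →ₗ[K] Al B K} {x : Al B K} {i : ι}

/-- one exchange inside `W` that keeps the agreements with `e'` -/
def Step (I : Submodule (Al B K)ᵐᵒᵖ (Al B K)) (W : Submodule K (Al B K)) (e' a b : ι → Al B K) :
    Prop :=
  (Bas I b ∧ ∀ j, b j ∈ W) ∧ (∃ i, ∀ j ≠ i, a j = b j) ∧ ∀ j, a j = e' j → b j = e' j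

theorem step_update (h : Bas I a ∧ ∀ j, a j ∈ W) (hπ : Crd a π) (hWI : ∀ w ∈ W, w ∈ I)
    (hx : x ∈ W) (hu : IsUnit (π i x)) (hi : a i ≠ e' i) :
    Step I W e' a (Function.update a i x) := by
  refine ⟨⟨h.1.update hπ (hWI x hx) hu, fun j => ?_⟩,
    ⟨i, fun j hj => (Function.update_of_ne hj ..).symm⟩, fun j hj => ?_⟩
  · rw [Function.update_apply]
    split_ifs
    exacts [hx, h.2 j]
  · rw [Function.update_of_ne fun e : j = i => hi (e ▸ hj), hj]

theorem move [FiniteDimensional K W] (hW : Ext W) (hWI : ∀ w ∈ W, w ∈ I) (he' : Bas I e')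
    (he'W : ∀ j, e' j ∈ W) {l : Al B K →ₗ[K] K} {c0 : FreeGroup B} (hl : ∀ j, l (e' j) = 0)
    (hc0 : ∀ c, IsLetter c → c ≠ c0 → ∀ w ∈ stay W c, l w = 0)
    (h : Bas I a ∧ ∀ j, a j ∈ W) (hπ : Crd a π) (hi : l (a i) ≠ 0) :
    ∃ x ∈ W, l x = 0 ∧ IsUnit (π i x) := by
  have h1 : π i (a i) = 1 := by rw [hπ.self, if_pos rfl]
  by_cases hn : ∃ n ∈ W, π i n = 0 ∧ l n ≠ 0
  · obtain ⟨n, hn, h2, h3⟩ := hn
    exact ⟨a i - (l (a i) / l n) • n, sub_mem (h.2 i) (smul_mem _ _ hn), by simp [h3],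
      by simp [h1, h2]⟩
  push Not at hn
  obtain ⟨π', hπ'⟩ := he'.exists_crd
  obtain ⟨c, hc, u, hu, h2⟩ := exists_one (ρ := π i) (E := range a)
    (by rintro _ ⟨j, rfl⟩; exact hπ.sc i j) _ W inferInstance rfl hW ((hπ.lin h.1 i).cpt hWI)
    (range_subset_iff.2 h.2) (fun w hw => h.1.2.ge (hWI w hw)) (by
      by_contra h3
      push Not at h3
      refine one_ne_zero (h1.symm.trans (hπ'.kill he' (hπ.lin h.1 i) (h.1.mem i) fun j => .inl ?_))
      have h4 := (h3 _ (he'W j)).eq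
      have h5 := hn (e' j - (π i (e' j)).coeff 1 • a i) (sub_mem (he'W j) (smul_mem _ _ (h.2 i)))
        (by rw [map_sub, map_smul, h1, ← h4, sub_self])
      rw [map_sub, map_smul, hl, zero_sub, neg_eq_zero, smul_eq_mul, mul_eq_zero_iff_right hi] at h5
      rw [h4, h5, zero_smul])
  have h3 := hn (u - a i) (sub_mem hu.1 (h.2 i)) (by rw [map_sub, h1, h2, sub_self])
  rw [map_sub, sub_eq_zero] at h3
  have h4 : c = c0 := by_contra fun e => hi (h3 ▸ hc0 c hc e u hu)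
  refine ⟨u * el c, hu.2, hc0 _ hc.inv (h4 ▸ hc.inv_ne) _ (stay_inv hu), ?_⟩
  rw [hπ.lin h.1 i u (hWI u hu.1), h2, one_mul]
  exact ⟨⟨el c, el c⁻¹, by simp [one_def], by simp [one_def]⟩, rfl⟩

theorem steinitz [FiniteDimensional K W] (hW : Ext W) (hWI : ∀ w ∈ W, w ∈ I) (he' : Bas I e')
    (he'W : ∀ j, e' j ∈ W) (hπ' : Crd e' π') (hsc : ∀ s, ∀ w ∈ W, Sc (π' s w))
    (h : Bas I a ∧ ∀ j, a j ∈ W) (hi : a i ≠ e' i) :
    ∃ b, ReflTransGen (Step I W e') a b ∧ (Bas I b ∧ ∀ j, b j ∈ W) ∧ b i = e' i ∧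
      ∀ j, a j = e' j → b j = e' j := by
  classical
  have hst : ∀ c, IsLetter c → ∀ u ∈ stay W c, u = 0 := fun c hc u hu => by
    rw [← hπ'.sum he' (hWI u hu.1)]
    refine Finset.sum_eq_zero fun s _ => ?_
    have h1 := hsc s _ hu.2 (1 * c) (by simpa using hc.ne_one)
    rw [LinearMap.mulRight_apply, hπ'.lin he' s u (hWI u hu.1), coeff_mul_single_mul,
      mul_one] at h1
    rw [(hsc s u hu.1).eq, h1, zero_smul, mul_zero]
  have key : ∀ {a : ι → Al B K} {π}, (Bas I a ∧ ∀ j, a j ∈ W) → Crd a π → a i ≠ e' i →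
      π i (e' i) ≠ 0 → Step I W e' a (Function.update a i (e' i)) := fun {a π} h hπ hi h0 => by
    refine step_update h hπ hWI (he'W i) (Sc.isUnit ?_ h0) hi
    by_contra h1
    obtain ⟨c, hc, u, hu, h2⟩ := exists_one (ρ := π i) (E := range a)
      (by rintro _ ⟨j, rfl⟩; exact hπ.sc i j) _ W inferInstance rfl hW ((hπ.lin h.1 i).cpt hWI)
      (range_subset_iff.2 h.2) (fun w hw => h.1.2.ge (hWI w hw)) ⟨_, he'W i, h1⟩
    rw [hst c hc u hu, map_zero] at h2
    exact zero_ne_one h2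
  obtain ⟨π, hπ⟩ := h.1.exists_crd
  by_cases h0 : π i (e' i) = 0
  swap
  · have := key h hπ hi h0
    exact ⟨_, .single this, this.1, Function.update_self .., this.2.2⟩
  obtain ⟨k, hk, hk'⟩ : ∃ k, a k ≠ e' k ∧ π k (e' i) ≠ 0 := by
    by_contra h1
    push Not at h1
    have := hπ.kill h.1 (hπ'.lin he' i) (he'.mem i) fun j => by
      by_cases hj : a j = e' j
      · exact .inl (by rw [hj, hπ'.self, if_neg fun e : i = j => hi (e ▸ hj)])
      · exact .inr (h1 j hj)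
    rw [hπ'.self, if_pos rfl] at this
    exact one_ne_zero this
  have hki : i ≠ k := fun e => hk' (e ▸ h0)
  have s1 := step_update (x := a k - a i) h hπ hWI (sub_mem (h.2 k) (h.2 i))
    (by simp [hπ.self, hki.symm]) hk
  obtain ⟨π2, hπ2⟩ := s1.1.1.exists_crd
  have s2 := key s1.1 hπ2 (by rwa [Function.update_of_ne hki]) fun h1 => hk' (by
    have := hπ2.kill (ρ := π i + π k) s1.1.1 (fun y hy c => by
      simp [hπ.lin h.1 _ y hy c, add_mul]) (he'.mem i) fun j => by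
        by_cases hj : j = i
        · exact .inr (hj ▸ h1)
        refine .inl ?_
        rw [Function.update_apply]
        split_ifs with e
        · simp [hπ.self, hki, hki.symm]
        · simp [hπ.self, Ne.symm hj, Ne.symm e]
    simpa [h0] using this)
  exact ⟨_, (ReflTransGen.single s1).tail s2, s2.1, Function.update_self ..,
    fun j hj => s2.2.2 j (s1.2.2 j hj)⟩

theorem exch (he' : Bas I e') (n : ℕ) : ∀ W : Submodule K (Al B K), FiniteDimensional K W →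
    Module.finrank K W = n → Ext W → (∀ w ∈ W, w ∈ I) → (∀ j, e' j ∈ W) →
    ∀ a, (Bas I a ∧ ∀ j, a j ∈ W) → ReflTransGen (Step I W e') a e' := by
  induction n using Nat.strong_induction_on with
  | _ n ih =>
  intro W hf hn hW hWI he'W a ha
  obtain ⟨π', hπ'⟩ := he'.exists_crd
  by_cases hsc : ∀ s, ∀ w ∈ W, Sc (π' s w)
  · obtain ⟨b, h1, -, h2⟩ := reach_all (S := fun a => Bas I a ∧ ∀ j, a j ∈ W)
      (fun i (a : ι → Al B K) => a i = e' i)
      (fun a ha i hi => steinitz hW hWI he' he'W hπ' hsc ha hi) ha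
    rwa [funext h2] at h1
  push Not at hsc
  obtain ⟨s, w, hw, h0⟩ := hsc
  obtain ⟨l, c0, h1, -, h3, -, ⟨v, hv, h5, -⟩, h7⟩ := descend (E := range e') hW
    ((hπ'.lin he' s).cpt hWI) (range_subset_iff.2 he'W) (fun w hw => he'.2.ge (hWI w hw))
    (by rintro _ ⟨j, rfl⟩; exact hπ'.sc s j) hw h0
  have hl : ∀ j, l (e' j) = 0 := fun j => h3 _ ⟨j, rfl⟩
  have hlt := ker_lt hv.1 h5
  obtain ⟨b, h8, h9, h10⟩ := reach_all (r := Step I W e')
    (S := fun a => Bas I a ∧ ∀ j, a j ∈ W) (fun i a => l (a i) = 0) (fun a ha i hi => by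
      obtain ⟨π, hπ⟩ := ha.1.exists_crd
      obtain ⟨x, hx, h8, h9⟩ := move hW hWI he' he'W hl h7 ha hπ hi
      have := step_update (e' := e') ha hπ hWI hx h9 fun e => hi (e ▸ hl i)
      refine ⟨_, .single this, this.1, by simpa, fun j hj => ?_⟩
      rwa [Function.update_of_ne fun e : j = i => hi (e ▸ hj)]) ha
  have h11 := ih _ (hn ▸ finrank_lt_finrank_of_lt hlt) _ (finiteDimensional_of_le hlt.le)
    rfl h1 (fun w hw => hWI w hw.1) (fun j => ⟨he'W j, hl j⟩) b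
    ⟨h9.1, fun j => ⟨h9.2 j, h10 j⟩⟩
  exact h8.trans (ReflTransGen.mono
    (fun _ _ h => ⟨⟨h.1.1, fun j => (h.1.2 j).1⟩, h.2⟩) _ _ h11)

theorem exists_finite_convex [DecidableEq B] {Z : Set (FreeGroup B)} (hZ : Z.Finite) :
    ∃ P : Set (FreeGroup B), P.Finite ∧ Z ⊆ P ∧
      ∀ x ∈ P, ∀ c : B × Bool, x * mk [c] ∉ P → ∀ z ∈ P, (x⁻¹ * z).toWord.head? ≠ some c := by
  refine ⟨⋃ z ∈ Z, {g | ∃ w, g.toWord ++ w = z.toWord}, hZ.biUnion fun z _ =>
    ((List.finite_toSet z.toWord.inits).preimage toWord_injective.injOn).subset fun g hg =>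
      (List.mem_inits _ _).2 hg, fun z hz => mem_biUnion hz ⟨[], by simp⟩, ?_⟩
  simp only [mem_iUnion, mem_ofPred_eq]
  rintro x ⟨y, hy, w, hw⟩ c hc z ⟨y', hy', w', hw'⟩ h
  rcases reduced_or_cancel x c with h1 | h1
  · obtain ⟨v, hv⟩ := List.head?_eq_some_iff.1 h
    have h2 : IsReduced (x.toWord ++ (x⁻¹ * z).toWord) := by
      have h3 := isReduced_append_iff.1 (h1 ▸ isReduced_toWord (x := x * mk [c]))
      exact isReduced_append_iff.2 ⟨h3.1, isReduced_toWord, by simpa [hv] using h3.2.2⟩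
    have h3 := toWord_mul x (x⁻¹ * z)
    rw [h2.reduce_eq, mul_inv_cancel_left, hv] at h3
    exact hc ⟨y', hy', v ++ w', by simp [h1, ← hw', h3]⟩
  · exact hc ⟨y, hy, _, by rw [← hw, h1, List.append_assoc]⟩

theorem exch_main (T : Set (FreeGroup B)) (hT : ((cay B).induce T).Preconnected)
    {e : ι → Al B K} (he : Bas I e ∧ ∀ j, ((e j).coeff.support : Set (FreeGroup B)) ⊆ T)
    (he' : Bas I e' ∧ ∀ j, ((e' j).coeff.support : Set (FreeGroup B)) ⊆ T) :
    ReflTransGen (fun a b => (Bas I b ∧ ∀ j, ((b j).coeff.support : Set (FreeGroup B)) ⊆ T) ∧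
      (∃ i, ∀ j ≠ i, a j = b j) ∧ ∀ j, e j = e' j → b j = e j) e e' := by
  classical
  obtain ⟨P, h1, h2, h3⟩ := exists_finite_convex (finite_iUnion fun j =>
    ((e j).coeff.support ∪ (e' j).coeff.support).finite_toSet)
  have h4 := exch he'.1 _ (onT I (T ∩ P)) (fin_onT I (h1.inter_of_right T)) rfl
    (ext_onT I fun x hx c hc z hz => (not_and_or.1 hc).elim
      (fun h => convex_of_connected T hT x hx.1 c h z hz.1) fun h => h3 x hx.2 c h z hz.2)
    (fun w hw => hw.1) (fun j => ⟨he'.1.mem j, fun t ht => ⟨he'.2 j ht,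
      h2 (mem_iUnion.2 ⟨j, Finset.mem_union_right _ ht⟩)⟩⟩) e
    ⟨he.1, fun j => ⟨he.1.mem j, fun t ht => ⟨he.2 j ht,
      h2 (mem_iUnion.2 ⟨j, Finset.mem_union_left _ ht⟩)⟩⟩⟩
  have : ∀ b, ReflTransGen (Step I (onT I (T ∩ P)) e') e b → (∀ j, e j = e' j → b j = e' j) ∧
      ReflTransGen (fun a b => (Bas I b ∧ ∀ j, ((b j).coeff.support : Set (FreeGroup B)) ⊆ T) ∧
        (∃ i, ∀ j ≠ i, a j = b j) ∧ ∀ j, e j = e' j → b j = e j) e b := fun b hb => by
    induction hb with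
    | refl => exact ⟨fun _ h => h, .refl⟩
    | tail _ h ih =>
      exact ⟨fun j hj => h.2.2 j (ih.1 j hj), ih.2.tail ⟨⟨h.1.1, fun j t ht =>
        ((h.1.2 j).2 ht).1⟩, h.2.1, fun j hj => hj ▸ h.2.2 j (ih.1 j hj)⟩⟩
  exact (this _ h4).2

end Pool.Agent.Work.MP_1698af_al.Hedge
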