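import Pool.Agent.Work.MP_1698af_al.Main
import Pool.Agent.Work.MP_1698af_al.Hedge.Defs
import Mathlib.LinearAlgebra.Basis.VectorSpace
import Mathlib.LinearAlgebra.FiniteDimensional.Lemmas
import Mathlib.LinearAlgebra.Isomorphisms

/-! The extension property and the removal of one dimension. -/

namespace Pool.Agent.Work.MP_1698af_al.Hedge

open FreeGroup MulOpposite MonoidAlgebra Submodule

variable {B K : Type*} [Field K]

variable (K B) in
/-- the group algebra -/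
abbrev Al := MonoidAlgebra K (FreeGroup B)

/-- a group element in the group algebra -/
noncomputable abbrev el (c : FreeGroup B) : Al B K := single c 1

theorem el_mul (c d : FreeGroup B) : (el c * el d : Al B K) = el (c * d) := by
  rw [single_mul_single, mul_one]

theorem mul_el_inv (w : Al B K) (c : FreeGroup B) : w * el c * el c⁻¹ = w := by
  rw [mul_assoc, el_mul, mul_inv_cancel, el, ← one_def, mul_one]

theorem mul_inv_el (w : Al B K) (c : FreeGroup B) : w * el c⁻¹ * el c = w := by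
  simpa using mul_el_inv w c⁻¹

theorem IsLetter.inv {c : FreeGroup B} (h : IsLetter c) : IsLetter c⁻¹ := by
  obtain ⟨b, rfl | rfl⟩ := h
  exacts [⟨b, .inr rfl⟩, ⟨b, .inl (inv_inv _)⟩]

theorem IsLetter.mk {c : FreeGroup B} (h : IsLetter c) : ∃ d : B × Bool, c = mk [d] := by
  obtain ⟨b, rfl | rfl⟩ := h
  exacts [⟨(b, true), rfl⟩, ⟨(b, false), (mk_not (b, true)).symm⟩]

theorem IsLetter.inv_ne {c : FreeGroup B} (h : IsLetter c) : c⁻¹ ≠ c := by
  classical
  have key : ∀ b : B, (of b)⁻¹ ≠ of b := fun b e => by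
    have := congrArg toWord e
    simp [toWord_inv, toWord_of, invRev] at this
  obtain ⟨b, rfl | rfl⟩ := h
  exacts [key b, by simpa using (key b).symm]

theorem IsLetter.ne_one {c : FreeGroup B} (h : IsLetter c) : c ≠ 1 := fun e =>
  h.inv_ne (by rw [e, inv_one])

variable {W H : Submodule K (Al B K)} {c : FreeGroup B} {w : Al B K}

theorem mem_stay : w ∈ stay W c ↔ w ∈ W ∧ w * el c ∈ W := Iff.rfl

theorem stay_inv (h : w ∈ stay W c) : w * el c ∈ stay W c⁻¹ :=
  mem_stay.2 ⟨h.2, by rw [mul_el_inv]; exact h.1⟩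

theorem stay_mono (h : H ≤ W) (c : FreeGroup B) : stay H c ≤ stay W c := fun _ hw =>
  ⟨h hw.1, h hw.2⟩

/-- `φ` respects the multiplications by letters inside `W` -/
def Cpt (W : Submodule K (Al B K)) (φ : Al B K →ₗ[K] Al B K) : Prop :=
  ∀ c, IsLetter c → ∀ w ∈ stay W c, φ (w * el c) = φ w * el c

/-- compatible maps extend to the right ideal generated by `W` -/
def Ext (W : Submodule K (Al B K)) : Prop :=
  ∀ φ, Cpt W φ → ∃ Φ : Al B K →ₗ[K] Al B K, ∀ w ∈ W, ∀ a, Φ (w * a) = φ w * a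

theorem Ext.of_le (hW : Ext W) (h : H ≤ W)
    (h' : ∀ φ, Cpt H φ → ∃ ψ, Cpt W ψ ∧ ∀ w ∈ H, ψ w = φ w) : Ext H := fun φ hφ => by
  obtain ⟨ψ, h1, h2⟩ := h' φ hφ
  obtain ⟨Φ, h3⟩ := hW ψ h1
  exact ⟨Φ, fun w hw a => by rw [h3 w (h hw), h2 w hw]⟩

theorem peel1 (hW : Ext W) (l : Al B K →ₗ[K] K) (c0 : FreeGroup B)
    (hl : ∀ c, IsLetter c → c ≠ c0 → ∀ w ∈ stay W c, l w = 0) :
    Ext (W ⊓ LinearMap.ker l) ∧
      ((∀ v ∈ W, l v ≠ 0 → ∀ a, v * a ∈ span (Al B K)ᵐᵒᵖ (W ⊓ LinearMap.ker l : Submodule K _) →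
        a = 0) ∨ IsLetter c0 ∧ ∃ v ∈ stay W c0, l v = 1 ∧ l (v * el c0) = 0) := by
  by_cases hc : IsLetter c0 ∧ ∃ v ∈ stay W c0, l v ≠ 0
  · obtain ⟨h0, v1, hv1, hl1⟩ := hc
    have hz : ∀ w ∈ stay W c0, l (w * el c0) = 0 := fun w hw =>
      hl _ h0.inv h0.inv_ne _ (stay_inv hw)
    obtain ⟨v, hv, hlv⟩ : ∃ v ∈ stay W c0, l v = 1 :=
      ⟨(l v1)⁻¹ • v1, smul_mem _ _ hv1, by simp [hl1]⟩
    refine ⟨hW.of_le inf_le_left fun φ hφ => ?_, .inr ⟨h0, v, hv, hlv, hz v hv⟩⟩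
    let ψ : Al B K →ₗ[K] Al B K := φ + l.smulRight (φ (v * el c0) * el c0⁻¹ - φ v)
    refine ⟨ψ, ?_, fun w hw => by simp [ψ, LinearMap.mem_ker.1 hw.2]⟩
    have key : ∀ w ∈ stay W c0, ψ (w * el c0) = ψ w * el c0 := by
      intro w hw
      have h1 : w - l w • v ∈ stay W c0 := sub_mem hw (smul_mem _ _ hv)
      have h2 := hφ c0 h0 (w - l w • v) (mem_stay.2
        ⟨⟨h1.1, by simp [hlv]⟩, ⟨h1.2, hz _ h1⟩⟩)
      simp only [sub_mul, smul_mul_assoc, map_sub, map_smul] at h2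
      simp only [ψ, LinearMap.add_apply, LinearMap.smulRight_apply, hz w hw, zero_smul,
        add_mul, smul_mul_assoc, sub_mul, mul_inv_el, smul_sub]
      rw [sub_eq_iff_eq_add.1 h2]
      abel
    intro c hc w hw
    by_cases e1 : c = c0
    · exact e1 ▸ key w (e1 ▸ hw)
    by_cases e2 : c⁻¹ = c0
    · have := key _ (e2 ▸ stay_inv hw)
      rw [← e2, mul_el_inv] at this
      rw [this, mul_inv_el]
    · have h1 := hl c hc e1 w hw
      have h2 := hl _ hc.inv e2 _ (stay_inv hw)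
      simp only [ψ, LinearMap.add_apply, LinearMap.smulRight_apply, h1, h2, zero_smul, add_zero]
      exact hφ c hc w (mem_stay.2 ⟨⟨hw.1, h1⟩, ⟨hw.2, h2⟩⟩)
  · have hall : ∀ c, IsLetter c → ∀ w ∈ stay W c, l w = 0 := fun c h w hw => by
      by_cases e : c = c0
      · by_contra h1
        exact hc ⟨e ▸ h, w, e ▸ hw, h1⟩
      · exact hl c h e w hw
    refine ⟨hW.of_le inf_le_left fun φ hφ => ⟨φ, fun c h w hw => hφ c h w (mem_stay.2
      ⟨⟨hw.1, hall c h w hw⟩, ⟨hw.2, hall _ h.inv _ (stay_inv hw)⟩⟩), fun _ _ => rfl⟩, .inl ?_⟩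
    obtain ⟨Φ, hΦ⟩ := hW (l.smulRight 1) fun c h w hw => by
      simp [hall c h w hw, hall _ h.inv _ (stay_inv hw)]
    have hk : ∀ x ∈ span (Al B K)ᵐᵒᵖ (W ⊓ LinearMap.ker l : Submodule K (Al B K)), ∀ a,
        Φ (x * a) = 0 := by
      intro x hx
      induction hx using span_induction with
      | mem x hx => intro a; simp [hΦ x hx.1, LinearMap.mem_ker.1 hx.2]
      | zero => simp
      | add x y _ _ hx hy => intro a; rw [add_mul, map_add, hx, hy, add_zero]
      | smul r x _ hx => intro a; rw [smul_eq_mul_unop, mul_assoc, hx]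
    intro v hv hlv a ha
    have := hk _ ha 1
    rw [mul_one, hΦ v hv] at this
    simpa [hlv] using this

theorem forced_span {l : Al B K →ₗ[K] K} {v : Al B K} (hv : v ∈ stay W c) (h1 : l v = 1)
    (h2 : l (v * el c) = 0) :
    span (Al B K)ᵐᵒᵖ (W ⊓ LinearMap.ker l : Submodule K (Al B K)) =
      span (Al B K)ᵐᵒᵖ (W : Set (Al B K)) := by
  refine le_antisymm (span_mono fun _ h => h.1) (span_le.2 fun w hw => ?_)
  have e : w = (w - l w • v) + op (el c⁻¹ : Al B K) • (l w • (v * el c)) := by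
    rw [op_smul_eq_mul, smul_mul_assoc, mul_el_inv, sub_add_cancel]
  rw [e]
  exact add_mem (subset_span ⟨sub_mem hw (smul_mem _ _ hv.1), by simp [h1]⟩)
    (smul_mem _ _ (subset_span ⟨smul_mem _ _ hv.2, by simp [h2]⟩))

/-- the coefficient of `t` -/
noncomputable def cf (t : FreeGroup B) : Al B K →ₗ[K] K :=
  Finsupp.lapply t ∘ₗ (coeffLinearEquiv K).toLinearMap

theorem cf_apply (t : FreeGroup B) (a : Al B K) : cf t a = a.coeff t := rfl

theorem exists_max [DecidableEq B] [FiniteDimensional K W] {ρ : Al B K →ₗ[K] Al B K}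
    (hρ : Cpt W ρ) (hw : w ∈ W) {t0 : FreeGroup B} (h0 : (ρ w).coeff t0 ≠ 0) :
    ∃ t c0, norm t0 ≤ norm t ∧ (∃ w ∈ W, cf t (ρ w) ≠ 0) ∧
      ∀ c, IsLetter c → c ≠ c0 → ∀ w ∈ stay W c, cf t (ρ w) = 0 := by
  classical
  obtain ⟨s, hs⟩ := (Module.Finite.iff_fg (N := W)).1 inferInstance
  let Z := s.biUnion fun x => (ρ x).coeff.support
  have hZ : ∀ x ∈ W, ∀ t, (ρ x).coeff t ≠ 0 → t ∈ Z := by
    intro x hx t ht
    by_contra h
    have : W ≤ LinearMap.ker (cf t ∘ₗ ρ) := by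
      rw [← hs, span_le]
      intro y hy
      by_contra h'
      exact h (Finset.mem_biUnion.2 ⟨y, hy, Finsupp.mem_support_iff.2 h'⟩)
    exact ht (this hx)
  obtain ⟨t, ht, hmax⟩ := Finset.exists_max_image Z norm ⟨t0, hZ w hw t0 h0⟩
  obtain ⟨y, hy, hyt⟩ := Finset.mem_biUnion.1 ht
  have hlt : ∀ c, IsLetter c → ∀ w ∈ stay W c, cf t (ρ w) ≠ 0 → norm (t * c) ≤ norm t := by
    intro c hc w hw h
    refine hmax _ (hZ _ hw.2 _ ?_)
    rw [LinearMap.mulRight_apply, hρ c hc w hw, coeff_mul_single_mul, mul_one]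
    exact h
  have hex : ∃ c0, ∀ c, IsLetter c → norm (t * c) ≤ norm t → c = c0 := by
    by_cases h : ∃ c0, IsLetter c0 ∧ norm (t * c0) ≤ norm t
    · obtain ⟨c0, h1, h2⟩ := h
      refine ⟨c0, fun c h3 h4 => ?_⟩
      obtain ⟨d, rfl⟩ := h1.mk
      obtain ⟨d', rfl⟩ := h3.mk
      rw [letter_unique t _ _ h2 h4]
    · exact ⟨1, fun c h1 h2 => absurd ⟨c, h1, h2⟩ h⟩
  obtain ⟨c0, hc0⟩ := hex
  refine ⟨t, c0, hmax _ (hZ w hw t0 h0),
    ⟨y, hs ▸ subset_span hy, Finsupp.mem_support_iff.1 hyt⟩, fun c hc hne w hw => ?_⟩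
  by_contra h
  exact hne (hc0 c hc (hlt c hc w hw h))

/-- the elements of a right ideal supported on `T` -/
noncomputable def onT (I : Submodule (Al B K)ᵐᵒᵖ (Al B K)) (T : Set (FreeGroup B)) : Submodule K (Al B K) :=
  I.restrictScalars K ⊓ supported K K T

theorem fin_onT (I : Submodule (Al B K)ᵐᵒᵖ (Al B K)) {T : Set (FreeGroup B)} (h : T.Finite) :
    FiniteDimensional K (onT I T) := by
  have : FiniteDimensional K (supported K K T) := by
    rw [supported_eq_span_single]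
    exact FiniteDimensional.span_of_finite K (h.image _)
  exact finiteDimensional_of_le (inf_le_right : onT I T ≤ _)

theorem exists_fac {V V' : Type*} [AddCommGroup V] [Module K V] [AddCommGroup V'] [Module K V']
    (N : Submodule K V) (f g : V →ₗ[K] V') (h : ∀ x ∈ N, f x = 0 → g x = 0) :
    ∃ Φ : V' →ₗ[K] V', ∀ x ∈ N, Φ (f x) = g x := by
  have hker : LinearMap.ker (f ∘ₗ N.subtype) ≤ LinearMap.ker (g ∘ₗ N.subtype) := fun x => h x.1 x.2
  obtain ⟨Φ, hΦ⟩ := LinearMap.exists_extend ((liftQ _ _ hker) ∘ₗ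
    (f ∘ₗ N.subtype).quotKerEquivRange.symm.toLinearMap)
  refine ⟨Φ, fun x hx => ?_⟩
  exact (LinearMap.congr_fun hΦ ⟨_, LinearMap.mem_range_self (f ∘ₗ N.subtype) ⟨x, hx⟩⟩).trans
    (congrArg (liftQ _ _ hker) (LinearMap.quotKerEquivRange_symm_apply_image _ _ _))

theorem ext_onT [DecidableEq B] (I : Submodule (Al B K)ᵐᵒᵖ (Al B K)) {T : Set (FreeGroup B)}
    (hT : ∀ x ∈ T, ∀ c : B × Bool, x * mk [c] ∉ T → ∀ z ∈ T, (x⁻¹ * z).toWord.head? ≠ some c) :
    Ext (onT I T) := by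
  classical
  intro φ hφ
  let j : I →ₗ[K] Al B K := I.subtype.restrictScalars K
  let ψ : I →ₗ[K] (FreeGroup B →₀ K) := (coeffLinearEquiv K).toLinearMap ∘ₗ j
  let V : Submodule K I := (onT I T).comap j
  have hpres : Presents (tr I) FreeGroup.of V :=
    presents_of_convex (tr I) (tr_one I) (tr_mul I) ψ (fun g m t => by
      change ((tr I g m : I) : Al B K).coeff _ = (m : Al B K).coeff t
      rw [tr_coe, coeff_mul_single_mul, mul_one]) T hT V fun m =>
        ⟨fun h t ht => h.2 (Finsupp.mem_support_iff.2 ht),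
          fun h => ⟨m.2, fun t ht => h t (Finsupp.mem_support_iff.1 ht)⟩⟩
  let E : (Al B K →ₗ[K] Al B K) → (FreeGroup B →₀ I) →ₗ[K] Al B K := fun f =>
    Finsupp.lsum K fun g => LinearMap.mulRight K (el g) ∘ₗ f ∘ₗ j
  have hE : ∀ f g m, E f (Finsupp.single g m) = f m * el g := fun f g m => by simp [E, j]
  let N : Submodule K (FreeGroup B →₀ I) := ⨅ g, V.comap (Finsupp.lapply g)
  have hN : ∀ x, x ∈ N ↔ ∀ g, x g ∈ V := fun x => by simp [N]
  obtain ⟨Φ, h2⟩ := exists_fac (V := FreeGroup B →₀ I) N (E LinearMap.id) (E φ) fun x hx h0 => by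
    have h1 : ev (tr I) x = 0 := by
      apply Subtype.ext
      have : ∀ y, ((ev (tr I) y : I) : Al B K) = E LinearMap.id y := fun y => by
        induction y using Finsupp.induction_linear with
        | zero => simp
        | add a b ha hb => simp [ha, hb]
        | single g m => rw [ev_single, hE, tr_coe]; rfl
      exact (this x).trans h0
    obtain ⟨u, hu, rfl⟩ := hpres x ((hN x).1 hx) h1
    rw [← Finsupp.sum_single u, Finsupp.sum, map_sum, map_sum]
    refine Finset.sum_eq_zero fun p _ => ?_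
    have h4 := hφ _ ⟨p.1, .inl rfl⟩ (u p : Al B K) (mem_stay.2 ⟨(hu p).1, (hu p).2⟩)
    have hs : ∀ x y, E φ (x - y) = E φ x - E φ y := fun x y => eq_sub_of_add_eq
      (((E φ).map_add _ _).symm.trans (congrArg _ (Finsupp.ext fun _ => sub_add_cancel _ _)))
    rw [bd_single, hs, hE, hE, tr_coe, h4, mul_assoc, el_mul, sub_self]
  refine ⟨Φ, fun w hw a => ?_⟩
  induction a using induction_linear with
  | zero => simp
  | add a b ha hb => rw [mul_add, map_add, ha, hb, mul_add]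
  | single g r =>
    have h3 := h2 (Finsupp.single g ⟨w, hw.1⟩) ((hN _).2 fun g' => by
      rw [Finsupp.single_apply]
      split_ifs
      exacts [hw, zero_mem _])
    rw [hE, hE] at h3
    have e : (single g r : Al B K) = r • el g := by simp
    rw [e, mul_smul_comm, map_smul, mul_smul_comm]
    exact congrArg _ h3

end Pool.Agent.Work.MP_1698af_al.Hedge
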